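import Pool.Agent.H941.TF.Wrap
import Pool.Agent.H941.QK.Res

set_option autoImplicit false

/-! # The motivic monodromy conjecture for ideals: linear systems whose continuous cubic sections are cubic forms

Let `I = (f_j)`, where the `f_j` are forms of the same degree `d` in `x₀, x₁, x₂`. We assume that
for some linear combination `f = ∑ lam_j f_j` (of the class `CubicChain`) the curve `f = 0` is the
union of a curve `H = 0` of degree `e ≥ 3` and of curves `g_1 = 0, …, g_r = 0` such that

* `H = 0` has few bad points (`FewBad`): there are `K ≥ 0` linear forms `l_i` such that each line
  `l_i = 0` has at least `K + 4` different points on `H = 0`, and each singular point of `H = 0` is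
  an ordinary double point of this curve (`NodeAt`), or a non-resonant quasi-homogeneous point of
  `f` (`QHAt`: there is a vector field `θ` with `θ f = 0` and `θ(z) = c z`, which has integer
  weights on the tangent space, and `3 c` is no integer), or the product of the `l_i` is locally at
  this point in the ideal of the partial derivatives of `H` (`JacAt`). So arbitrary singular points
  are allowed, if the degree of `H` is large in comparison with the degrees of their Milnor
  algebras. Or, more generally, the continuous sections of `O(3)` on `H = 0`, which are regular at
  the non-resonant quasi-homogeneous points of `f`, are cubic forms (`Cubic`);
* let `D_j` be the union of `H = 0` and the curves `g_l = 0`, `l < j`. Then `g_j` is irreducible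
  and `g_j = 0` has more than `3 deg (g_j)` different points on `D_j`, or `g_j = 0` meets `D_j`
  only transversally or in non-resonant quasi-homogeneous points of `f`, and `D_j` has degree at
  least four or `g_j` is irreducible;
* `H = 0` has degree at least four and no other singular points than ordinary double points, or the
  linear vector fields which annihilate `f` have trace `0` (`TrZero`). (If there is such a field of
  trace `≠ 0`, then `f ^ (-3/d) dx₀ dx₁ dx₂` is exact.)

There is no condition on the other members of the linear system. The multiplicities of all
components in `f` are arbitrary, and so are the singularities of the curves `g_j = 0` outside of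
`D_j` (in the first case, all of their singularities and intersections). So the curve `f = 0` may
have singular points which are not quasi-homogeneous.

The local motivic zeta function of `I` at the origin is computed from the ideal sheaf which `I`
defines on the projective plane, by blowing up points; see `ConeMot`, `ProjMot` (in
`W574.MO.FormDefs`), `PlaneMot` and `MotLocal` (in `W574.MO.Defs`). All denominators, except
possibly those which belong to `-3/d`, are known to belong to roots of `b_I` (`proj_of`, in the
starting library), so that the question is whether `b_I(-3/d) = 0`.

The proof of `b(-3/d) = 0`; put `s = -3/d` and let `s < 0` be no root of `b`: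

* `bert`: there is a line which meets the reduced curve `Q = 0` in `N = deg Q` points; let it be
  the line at infinity for the affine coordinates `t = x₀`, `x₁ = 1`, `x = x₂`, such that the given
  points have different coordinates `t`, and the branches at the double points are not vertical;
* `exact_two'`, `dat`: the functional equation gives (by `root_of_not_exact`, in the library)
  `f ^ s = ∂_t (P f ^ (s - K)) + ∂_x (R f ^ (s - K))` with polynomials; over the field `ℂ(t)` the
  order of the pole along `Q = 0` can be reduced to one;
* `fin_pt2`, `lim_inf'`: let `a_1(t), …, a_N(t)` be the roots of `Q(t, 1, x)`. The residues
  `y_j(t)` of the primitive at these roots satisfy a linear differential system. As all exponents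
  are negative, an energy identity shows that they are bounded at all finite points, that they have
  the SAME limit on all branches through a point, and that `y_j = O(t ^ 3)` at infinity;
* `poly`: so the primitive `f ^ s = ∂_t (p f ^ s / Q) + ∂_x (ρ f ^ s / Q)` has polynomials `p, ρ`.
  By `tends` the residue `y` is a continuous section of `O(3)` on the curve;
* `loc`, `reg_form`: at a non-resonant quasi-homogeneous point, the vector field acts on the
  truncated local ring with eigenvalues that are combinations of the weights; the shifted operator
  is invertible, so that the residue is the restriction of a regular function;
* `bdd_poly_t`, `start_local`: for the bad points, the product of the function `y` with the linear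
  forms `l_i` is regular on `H = 0`, since it is in the ideal of the partial derivatives; so it is
  the restriction of a polynomial `B` of degree at most `K + 3` (by the growth at infinity);
* `strip`: at the points where a line `l_i = 0` meets `H = 0`, the polynomial `B` is `0`; there are
  at least `K + 4` such points on the line, so `l_i` divides `B` modulo `H`. By induction, `y` is
  the restriction of a polynomial `Z` of degree at most three;
* `step`: the function `y - Z` on `g_j = 0` vanishes at the more than `3 deg (g_j)` points where
  the curve meets the previous ones, and is bounded by `t ^ 3`: the product of its values at the
  roots is an entire function of `t` with more zeros than its growth allows; `step2`, `step3`: the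
  function `(y - Z) / D_j` on `g_j = 0` has no poles, and it is zero or a constant by its growth at
  infinity. By induction, `y = Z` on `Q = 0`;
* `endgame`: after subtracting `∂_t (∂_x (Z f ^ s)) - ∂_x (∂_t (Z f ^ s))`, the primitive is a
  vector field without poles which is tangent to `Q = 0`, of the total degree at most two. It
  vanishes if `H = 0` has ordinary double points and degree at least four (`fin_nod`), and
  otherwise it comes from a linear vector field of trace `≠ 0` which annihilates `f` (`fin_lin`);
  this is a contradiction.
-/

namespace Pool.Agent.Results.MP_4e5fcd_ag.CubicChain

open MvPolynomial Pool.Agent.W574.MO Pool.Agent.W574.SM Pool.Agent.Helper748.MC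
  Pool.Agent.H941.TF
  Pool.Agent.H941.SC Pool.Agent.H941.QH Pool.Agent.H941.QK

/-- Let `f_j` be forms of the same degree `d` in three variables, such that some linear combination
`f = ∑ lam_j f_j` is of the class `CubicChain`: the curve `f = 0` consists of a curve with few bad
points (apart from double points and non-resonant quasi-homogeneous points of `f`), or whose
continuous sections of `O(3)` are cubic forms, and of components which have many points on the
previous ones or meet them transversally or in quasi-homogeneous points. Let `b` be a polynomial
which satisfies a Bernstein-Sato functional equation of `f_1, ..., f_r` (in particular the
Bernstein-Sato polynomial `b_I` of the ideal `I = (f_j)`), and let `Z ∈ M⟦T⟧` be the local motivic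
zeta function of `I` at the origin. Then `-3/d` is a root of `b`, and `Z` lies in the ring `M[T][(1
- L⁻ⁿ Tᵃ)⁻¹]`, where the pairs `a, n ≥ 1` are such that `-n/a` is a root of `b`. -/
theorem result {M : Type} [CommRing M] (L : Mˣ) {ι : Type} [Fintype ι]
    (f : ι → MvPolynomial (Fin 3) ℂ) (d : ℕ) (hf : ∀ j, (f j).IsHomogeneous d)
    (lam : ι → ℂ) (h : CubicChain (lcomb f lam))
    (b : Polynomial ℂ) (hb : IsFunctionalEq f b) :
    b.eval (-3 / d : ℂ) = 0 ∧ ∀ Z : PowerSeries M, ConeMot L f d Z →
      Z ∈ DenRing L (RootPair b) := by
  classical
  have hr := cubic_ideal f hf lam h b hb
  exact ⟨hr, fun Z hZ => mot_local_of L f d hf b hb hr Z hZ⟩

end Pool.Agent.Results.MP_4e5fcd_ag.CubicChain
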