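import Pool.Agent.H942.T3.FamMain

/-!
# The motivic monodromy conjecture for ideals generated by plane curves of large degree and their multiples

We prove Q1, in its strong form and at the origin, for the ideals of the class `GermT false`: it is generated by
the principal ideals of the forms in three variables described below (and by helper940's class `Germ`), with sums
and products in disjoint sets of variables, the hypersurfaces `∑ y_j f_j = 0`, relative cones and formal
coordinates. For example, let `f_1, …, f_r` be such forms in disjoint triples of variables; then there is a
finite set `S` of pairs `(a, b)`, `a < 0 < b`, such that `a / b` is a root of the local Bernstein-Sato polynomial of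
the ideal `I = (f_1, …, f_r)`, and the local motivic zeta function of `I` has only the denominators
`1 - 𝕃 ^ a T ^ b`, `(a, b) ∈ S`; the same holds for the hypersurface `∑ y_j f_j = 0` and for products of such
ideals. By a theorem of Budur, Mustaţă and Saito (not formalised) the roots of the Bernstein-Sato polynomial of
an ideal give eigenvalues of the monodromy of Verdier's specialization complex.

The classes of forms and the theorem on `-3/d` are due to helper942 (`Pool.Agent.H942.T3`, `Pool.Agent.H942.LP`;
they build on modules of helper941), the closure properties to helper940 and the library.

**The forms.** Let `f ≠ 0` be a form of degree `d` in three variables over `ℂ`.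

**Forms whose reduced curve has a large degree** (`DivSub`, first case). Let `H = 0` be the reduced curve of
`f = 0` and `e` its degree. Double points of `H = 0` (of all types `A_k`) and non-resonant quasi-homogeneous
points of `f` (`QHAt`) are free. Let `P_b` be the other singular points, and let `k_b` be numbers with
`dist (y, P_b) ^ (k_b + 2) = o (|grad H (y)|)` for `y → P_b` on `H = 0` (`Small`). For an ordinary `m`-fold point
this is `k = m - 2`; in general it means that the power `k + 1` of the maximal ideal of the point is contained in
the conductor. The theorem holds **if `∑ k_b + 5 ≤ e`** (without such points: if `e ≥ 4`), more generally if the
forms of degree `e - 6` separate the jets of order `< k_b` at the points `P_b` (`SepJets`); for example, if the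
`P_b` are ordinary triple points which impose independent conditions on the curves of degree `e - 6`. The
multiplicities of the components of `f = 0` are arbitrary.

**Multiples** (`DivSub`, second case). If `H` is any squarefree divisor of `f` which satisfies the same
conditions, and if the points of `H = 0` have multiplicities `≤ m < e / 3`, then the theorem holds, and **the
form `f / H` is arbitrary**: any number of components, with any multiplicities, with any singularities and with
any contact to `H = 0`. For example `H = 0` is a smooth curve of a degree `≥ 4`, or a curve of a degree `≥ 7` with
arbitrary double points, or of a degree `e ≥ 10` with `e - 5` ordinary triple points and with any number of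
double points.

**The general case** (`TameSub`). The reduced curve `f = 0` is the union of `H = 0` and of `g_1 = 0, …, g_r = 0`
(forms, `H ∏ g_j` squarefree), where

* (`Start`) `H` satisfies the conditions above; or `e > 2 κ + 3`, and each singular point `z` of `H = 0` is a
  double point of this curve, or a non-resonant quasi-homogeneous point of `f`, or
  `dist (y, z) ^ 2 (|g₁ y| + |g₂ y|) = o (|grad H (y)|)` for `y → z` on `H = 0`, where `g₁`, `g₂` are two
  relatively prime forms of degree `κ`, which do not depend on `z`;
* let `D_j` be the product of `H` and the `g_l` with `l < j`; then `g_j` is irreducible and has more than
  `3 deg g_j` different common points with `D_j = 0`, or `D_j = 0` has a multiplicity `≤ m` at the common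
  points (those which are not non-resonant quasi-homogeneous points of `f`), where `3 m < deg D_j`.

We also assume that all linear vector fields which annihilate `f` have trace `0` (`TrZero`).

The curve `f = 0` is in general not reduced, its singular points are in general not quasi-homogeneous,
and the components `g_j = 0` have arbitrary singularities outside of the previous components.

The proof of `b(-3/d) = 0` (`TameSub.root`). Put `s = -3/d` and suppose that `b(s) ≠ 0`.

* `bert`, `center2`: there are coordinates `t = x₀`, `x₁ = 1`, `x = x₂` such that the line at infinity is
  transversal to the reduced curve `Q = 0`, no tangent at the (finitely many) bad points is vertical, and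
  different bad points have different coordinates `t`;
* (library, and helper941's modules) the functional equation gives polynomials with
  `f ^ s = ∂_t (p f ^ s / Q) + ∂_x (ρ f ^ s / Q)`; let `y` be the residue of this primitive, a function on the
  curve `Q = 0`. It is bounded near each point and `O (t ^ 3)` at infinity, and (`lip`) it is even a
  **Lipschitz function** of the points of the curve: `(y_i - y_j) / (a_i - a_j)` has a limit for any two
  branches `x = a_i (t)`, `x = a_j (t)`. The quotients satisfy a linear system with positive exponents, since
  `s < 0`; the multiplicities of the components do not matter;
* `t_Mo`: hence `y = y(z) + O (t - t(z))` along each branch through `z` (monodromy: the differences of the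
  conjugates are bounded by those of the branches);
* `t_St2`: so, near each point `z` of `H = 0`, the product of `y` with a function `g` is the restriction of a
  polynomial: with `g = 1` at double points, since Lipschitz functions on `A_k`-singularities are regular
  (`t_V3`), with all `g` in the power `k` of the maximal ideal at a point of depth `k` (`t_FP`), by Lagrange
  interpolation in clusters of roots (`t_V`, `t_V2`);
* `gs`, `t_Rg`, `t_Al`, `t_In`: **`y` is a polynomial on `H = 0`**, by a residue argument. Let `y = W / δ(t)` on
  `H = 0`, with the polynomial `δ` of the least degree, and let `δ(b) = 0`. For a polynomial `g` of degree
  `≤ e - 6` the trace of `g y / ∂_x H` is a rational function of `t` which is `O (t ^ (-2))` at infinity and has no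
  poles outside of `b` if `g` vanishes to the order `k_z` at the bad points outside of the fibre. The jet of `g` at
  the bad point of the fibre is arbitrary, and the residue at `b` is zero. So `y` has no pole there;
* or (`t_Zq`) `g₁ y = W₁` and `g₂ y = W₂` on `H = 0`, and `g₂ W₁ - g₁ W₂` has degree `≤ 2 κ + 3 < e`, so it is `0`,
  and `y` is a polynomial on `H = 0`. In both cases `y = Z` on `H = 0` with a polynomial `Z` of degree `≤ 3`;
* `t_Ps`: on `g_j = 0` the function `(y - Z) ^ m / D_j` is bounded (Lipschitz, and `y = Z` on `D_j = 0`) and
  is `O (t ^ (3 m - deg D_j))` at infinity; so it is `0`; or it has more zeros than its degree. So `y = Z`
  on `Q = 0`;
* endgame: after a change by a boundary the primitive is a vector field without poles which is tangent to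
  the curve, and then a linear vector field of trace `≠ 0` which annihilates `f`, a contradiction (`t_MF`: then
  each curve contained in `f = 0` has a point of a multiplicity `≥ e' / 2`).

**All other poles and the closure properties.** For a form of the class all volumes of arcs are computed with one
finite set of pairs which are roots in the strong sense at the origin (`fin_univ3`: the points outside of the
vertex are plane curve germs, for which the library has this); helper940's steps (`pm_sum`, `pm_mul`, `pm_hyp`,
`pm_cone`, `pm_formal`) give the closure properties.
-/

set_option autoImplicit false

namespace Pool.Agent.Results.MP_4e5fcd_ag.TameSubcurve

open MvPolynomial Pool.Agent.H942.T3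
open Pool.Agent.Q49.CO (StrongMC)

/-- **Q1, in its strong form, for the ideals at the origin generated by the tuples `f` of the class
`GermT false`.**

The class contains the principal ideals of all forms in three variables of the class `Tame` which are not
annihilated by a linear vector field of trace `≠ 0` (forms whose reduced curve `H = 0` has a degree
`e ≥ 5 + ∑ k_b`, where `k_b` are the depths of the singular points which are not double points, multiples of such
`H` with points of multiplicities `< e / 3`, and more), the class `Germ` (forms with weighted homogeneous isolated
projective singularities, and so on), and with ideals their sums (of the smaller class `GermT true`, which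
contains the forms) and products in disjoint sets of variables, the hypersurfaces `∑ y_j f_j = 0`, cones, and all
ideals which are of this type in formal coordinates.

There is a finite set `S` of pairs `(a, b)` with `a < 0 < b` such that `a / b` is a root of every polynomial which
satisfies a functional equation of Budur, Mustaţă and Saito for the `f_j` with operators with formal power
series coefficients (for instance the local Bernstein-Sato polynomial of the ideal at the origin), and such
that the local motivic zeta function of the ideal is in the subring of `𝓜⟦T⟧` generated over `𝓜` by `T` and the
`1 / (1 - 𝕃 ^ a T ^ b)`, `(a, b) ∈ S` (`StrongMC f S`). -/
theorem result {n r : ℕ} (f : Fin r → MvPolynomial (Fin n) ℂ) (hf : GermT false n r f) :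
    ∃ S : Finset (ℤ × ℤ), StrongMC f S :=
  (germT_main hf).2

end Pool.Agent.Results.MP_4e5fcd_ag.TameSubcurve
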