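import Pool.Agent.H941.TF.Wrap
import Pool.Agent.H941.SC.Curve

set_option autoImplicit false

/-! # The motivic monodromy conjecture for ideals: linear systems with transversal components

Let `I = (f_j)`, where the `f_j` are forms of the same degree `d` in `x₀, x₁, x₂`, such that some
linear combination `f = ∑ lam_j f_j` is of one of the following two types:

* `SmoothComp`: `f = h ^ m g`, where `h` is a form of degree `e ≥ 2` such that the curve `h = 0` is
  smooth, `m ≥ 1`, `3 m ≠ d`, and `g` is an ARBITRARY form: the only condition is that the reduced
  curve `G = 0` of the zeros of `g` is transversal to the curve `h = 0`;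
* `TwoLines`: `f = l₀ ^ m₀ l₁ ^ m₁ g`, where `l₀`, `l₁` are linear forms with different lines of zeros,
  `m₀, m₁ ≥ 1`, and `g` is an ARBITRARY form: the only condition is that the curve `g = 0`, which has
  the degree `N ≥ 2` as a reduced curve, meets each of the two lines in `N` different points and does
  not contain the intersection point of the two lines.

There is no condition on the multiplicities of the components of `g = 0` and on the singularities
of this curve, none on the other members of the linear system, and the smooth curve need not be
generic.

The local motivic zeta function of `I` at the origin is computed from the ideal sheaf which `I`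
defines on the projective plane, by blowing up points; see `ConeMot`, `ProjMot` (in
`W574.MO.FormDefs`), `PlaneMot` and `MotLocal` (in `W574.MO.Defs`). All denominators, except possibly
those which belong to `-3/d`, are known to belong to roots of `b_I` (`proj_of`, in the starting
library), so that the question is whether `b_I(-3/d) = 0`.

The proof of `b(-3/d) = 0` for `SmoothComp`; put `s = -3/d` and let `s < 0` be no root of `b`:

* `bertini`: a line meets the reduced curve `Q = h G = 0` in `N = deg Q` points; let it be the line at
  infinity for the affine coordinates `t = x₀`, `x₁ = 1`, `x = x₂`;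
* `exact_two'`, `dat`: the functional equation gives (by `root_of_not_exact`, in the library)
  `f ^ s = ∂_t (P f ^ (s - K)) + ∂_x (R f ^ (s - K))` with polynomials; over the field `ℂ(t)` the
  order of the pole along `Q = 0` can be reduced to one;
* `Dat.ode`, `fin_pt`, `lim_inf'`: let `a_1(t), …, a_N(t)` be the roots of `Q(t, 1, x)`. The residues
  `y_j(t)` of the primitive at these roots satisfy a linear differential system. As all exponents
  are negative, an energy identity shows that they are bounded at all finite points, and
  that `y_j = O(t ^ 3)` at infinity;
* `poly`: so the primitive `f ^ s = ∂_t (p f ^ s / Q) + ∂_x (ρ f ^ s / Q)` has polynomials `p, ρ`;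
* `step1`, `step3`: there is a polynomial `Z` of the total degree at most three, such that, after
  subtracting `∂_t (∂_x (Z f ^ s)) - ∂_x (∂_t (Z f ^ s))`, the vector field `(p, ρ)` vanishes twice on
  the curve `h = 0`. Here the smoothness, the transversality, and `3 m ≠ d` are used;
* `Full.fin`, `Full.inf`, `van`: the functions `(y_j - Z(t, a_j)) / h(t, a_j) ^ 2` on the curve `G = 0`
  are bounded at all finite points, and have the limit `0` at infinity, because `2 e > 3`. By the
  theorem of Liouville they are `0`;
* `fin_alg`: then the primitive is of the form `∂_t (∂_x (Z f ^ s)) - ∂_x (∂_t (Z f ^ s))` up to a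
  vector field of too large degree, and this is a contradiction.

The proof for `TwoLines`, where the two lines are `t = 0` and `t = ∞` and `(0 : 0 : 1)` is their
point of intersection (`stage0`, `Cl.red`, `normal`, `special`, `point`, `Data.ode`, `loc`,
`energy`, `contra`): with `e = s m₀`, the residues satisfy
`y_j' + (e / t) y_j + ∑_i b_i (y_j - y_i) (a_j - a_i)' / (a_j - a_i) = a_j' t / (e + 1)`, where
`b_i = s n_i < 0`. By the energy identity `y_i(t₀) = y_j(t₀)` if `a_i(t₀) = a_j(t₀)`, `t₀ ≠ 0, ∞`. The
functions `z_j = y_j / t ^ 2` are bounded at `t = 0`, and have DIFFERENT limits at `t = ∞`. So the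
symmetric function `∏_{i ≠ j} (z_i - z_j)` is a constant which is not zero. Therefore the `a_j(t₀)`
are different for all `t₀`; then `1 / ∏_{i ≠ j} (a_i - a_j)` is an entire function with the limit `0`
at infinity, a contradiction.
-/

namespace Pool.Agent.Results.MP_4e5fcd_ag.TransversalComponents

open MvPolynomial Pool.Agent.W574.MO Pool.Agent.W574.SM Pool.Agent.Helper748.MC
  Pool.Agent.H941.TF Pool.Agent.H941.SC

/-- Let `f_j` be forms of the same degree `d` in three variables, such that some linear
combination `∑ lam_j f_j` is of one of the following types:

* `SmoothComp`: it is `h ^ m g`, `m ≥ 1`, `3 m ≠ d`, where `h = 0` is a smooth curve of degree at least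
  two, and the (reduced) curve `g = 0` is transversal to it;
* `TwoLines`: it is `l₀ ^ m₀ l₁ ^ m₁ g`, `m₀, m₁ ≥ 1`, where the (reduced) curve `g = 0` has a degree at
  least two, is transversal to the two different lines `l₀ = 0` and `l₁ = 0` and does not contain
  their point of intersection.

Let `b` be a polynomial which satisfies a Bernstein-Sato functional equation of `f_1, ..., f_r` (in
particular the Bernstein-Sato polynomial `b_I` of the ideal `I = (f_j)`), and let `Z ∈ M⟦T⟧` be the
local motivic zeta function of `I` at the origin. Then `-3/d` is a root of `b`, and `Z` lies in the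
ring `M[T][(1 - L⁻ⁿ Tᵃ)⁻¹]`, where the pairs `a, n ≥ 1` are such that `-n/a` is a root of `b`. -/
theorem result {M : Type} [CommRing M] (L : Mˣ) {ι : Type} [Fintype ι]
    (f : ι → MvPolynomial (Fin 3) ℂ) (d : ℕ) (hf : ∀ j, (f j).IsHomogeneous d)
    (lam : ι → ℂ) (h : (∃ m, SmoothComp m (lcomb f lam) ∧ 3 * m ≠ d) ∨ TwoLines (lcomb f lam))
    (b : Polynomial ℂ) (hb : IsFunctionalEq f b) :
    b.eval (-3 / d : ℂ) = 0 ∧ ∀ Z : PowerSeries M, ConeMot L f d Z →
      Z ∈ DenRing L (RootPair b) := by
  classical
  have hr : b.eval (-3 / d : ℂ) = 0 := by
    rcases h with ⟨m, h, h3⟩ | h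
    · exact smooth_ideal f hf lam h h3 b hb
    · exact lines_ideal f d hf lam h b hb
  exact ⟨hr, fun Z hZ => mot_local_of L f d hf b hb hr Z hZ⟩

end Pool.Agent.Results.MP_4e5fcd_ag.TransversalComponents
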